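import Mathlib

/-!
# Noise sensitivity in geometric last passage percolation: basic definitions

Sites are pairs (time, space).  Directed paths move one unit in time and plus or minus one
unit in space at each step.  The quadrant coordinates `(i, j)` based at a site `u`
correspond to the site `qs u i j = (u.1 + i + j, u.2 + i - j)`.
-/

open MeasureTheory ProbabilityTheory
open scoped ENNReal

namespace Pool.Agent.H99.NS

/-- A site: (time, space). -/
abbrev Site := ℤ × ℤ

/-- An environment. -/
abbrev Env := Site → ℕ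

/-- The geometric law with weights `(1 - a) a ^ k` (Dirac mass at `0` if `a` is not in
`[0, 1)`). -/
noncomputable def geo (a : ℝ) : Measure ℕ :=
  if 0 ≤ a ∧ a < 1 then
    Measure.sum (fun k : ℕ => ENNReal.ofReal ((1 - a) * a ^ k) • Measure.dirac k)
  else Measure.dirac 0

instance instGeo (a : ℝ) : IsProbabilityMeasure (geo a) := by
  unfold geo
  split_ifs with h
  · constructor
    rw [Measure.sum_apply _ MeasurableSet.univ]
    simp only [Measure.smul_apply, measure_univ, smul_eq_mul, mul_one]
    rw [← ENNReal.ofReal_tsum_of_nonneg]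
    · rw [tsum_mul_left, tsum_geometric_of_lt_one h.1 h.2,
        mul_inv_cancel₀ (by linarith [h.2]), ENNReal.ofReal_one]
    · intro k
      exact mul_nonneg (by linarith [h.2]) (pow_nonneg h.1 k)
    · exact (summable_geometric_of_lt_one h.1 h.2).mul_left _
  · infer_instance

/-- The i.i.d. geometric environment. -/
noncomputable def PE (q : ℝ) : Measure Env := Measure.infinitePi (fun _ => geo q)

/-- i.i.d. sequence. -/
noncomputable def P1 (a : ℝ) : Measure (ℕ → ℕ) := Measure.infinitePi (fun _ => geo a)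

/-- i.i.d. array. -/
noncomputable def P2 (a : ℝ) : Measure (ℕ × ℕ → ℕ) := Measure.infinitePi (fun _ => geo a)

instance instPE (q : ℝ) : IsProbabilityMeasure (PE q) := by unfold PE; infer_instance
instance instP1 (q : ℝ) : IsProbabilityMeasure (P1 q) := by unfold P1; infer_instance
instance instP2 (q : ℝ) : IsProbabilityMeasure (P2 q) := by unfold P2; infer_instance

/-- Mean passage time per unit of time in the vertical direction. -/
noncomputable def mu (q : ℝ) : ℝ := √q / (1 - √q)

/-- The curvature constant: the limit shape is `mu * t - (sg/2) * x^2 / t + ...`. -/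
noncomputable def sg (q : ℝ) : ℝ := √q / (1 - q)

/-- Last passage time from `(0,0)` to `(i,j)` (both included) with weights `w`. -/
def Gq (w : ℕ → ℕ → ℕ) : ℕ → ℕ → ℕ
  | 0, 0 => w 0 0
  | (i+1), 0 => Gq w i 0 + w (i+1) 0
  | 0, (j+1) => Gq w 0 j + w 0 (j+1)
  | (i+1), (j+1) => max (Gq w i (j+1)) (Gq w (i+1) j) + w (i+1) (j+1)

/-- The site with quadrant coordinates `(i,j)` from the base point `u`. -/
def qs (u : Site) (i j : ℕ) : Site := (u.1 + i + j, u.2 + i - j)

/-- Last passage time from `u` to `qs u a b`, both end points included. -/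
def Lq (ω : Env) (u : Site) (a b : ℕ) : ℕ := Gq (fun i j => ω (qs u i j)) a b

/-- Last passage time from `u` to `qs u a b`, starting point excluded. -/
def Tq (ω : Env) (u : Site) (a b : ℕ) : ℕ :=
  Gq (fun i j => if i = 0 ∧ j = 0 then 0 else ω (qs u i j)) a b

/-- The model with boundary: horizontal weights `I k` (`k ≥ 1`), vertical weights `J k`
(`k ≥ 1`), bulk weights `W i j` (`i, j ≥ 1`), weight `0` at the origin. -/
def Gb (I J : ℕ → ℕ) (W : ℕ → ℕ → ℕ) (a b : ℕ) : ℕ :=
  Gq (fun i j => if i = 0 then (if j = 0 then 0 else J j) else (if j = 0 then I i else W i j)) a b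

/-- `IsPath s t γ`: the function `γ` moves by `±1` at each time step between `s` and `t`. -/
def IsPath (s t : ℤ) (γ : ℤ → ℤ) : Prop :=
  ∀ r, s ≤ r → r < t → (γ (r+1) - γ r = 1 ∨ γ (r+1) - γ r = -1)

/-- Weight of a path on the time interval `(s, t]`. -/
noncomputable def wt (ω : Env) (s t : ℤ) (γ : ℤ → ℤ) : ℝ :=
  ∑ r ∈ Finset.Ioc s t, (ω (r, γ r) : ℝ)

/-- `v` can be reached from `u`. -/
def Reach (u v : Site) : Prop :=
  |v.2 - u.2| ≤ v.1 - u.1 ∧ Even ((v.1 - u.1) + (v.2 - u.2))

/-- Last passage time from `u` (excluded) to `v` (included). -/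
noncomputable def T (ω : Env) (u v : Site) : ℝ :=
  sSup {x | ∃ γ : ℤ → ℤ, IsPath u.1 v.1 γ ∧ γ u.1 = u.2 ∧ γ v.1 = v.2 ∧ x = wt ω u.1 v.1 γ}

/-- Parabolic approximation of the passage time. -/
noncomputable def par (q : ℝ) (u v : Site) : ℝ :=
  mu q * ((v.1 - u.1 : ℤ) : ℝ) - sg q / 2 * ((v.2 - u.2 : ℤ) : ℝ) ^ 2 / ((v.1 - u.1 : ℤ) : ℝ)

end Pool.Agent.H99.NS
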